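import Pool.Agent.Run7.h347.OW.Iface

/-!
Piece DO of project OW (helper347): a decreasing sequence of open sets with empty intersection
whose closures contain a given countable set of thin points.
-/

set_option autoImplicit false

open Set Filter Topology Pool.Agent.Results.MP_76989b_gt.NotFrechetUrysohn

namespace Run7.h232.OW

open Pool.Agent.Run7.h347.OW

/-- The complement of the interior of a closed set is minimally bounded. -/
theorem minBounded_compl_interior {X : Type*} [TopologicalSpace X] (E : Set X)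
    (hE : IsClosed E) : MinBounded (interior E)ᶜ := by
  refine ⟨?_, ?_⟩
  · rw [← closure_compl]
    exact closure_mono (interior_maximal subset_closure hE.isOpen_compl)
  · rw [isOpen_interior.isClosed_compl.closure_eq]
    exact interior_subset

theorem t_DO {X : Type*} [TopologicalSpace X] : S_DO X := by
  classical
  intro _ hS d B h1 h2 h3 h4
  obtain ⟨E, hE⟩ : ∃ E : ℕ → ℕ → Set X, ∀ n k z, z ∈ E n k ↔
      ∃ i ∈ Finset.range n, z ∈ closure (B (d i) k) :=
    ⟨fun n k => ⋃ i ∈ Finset.range n, closure (B (d i) k), fun n k z => by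
      simp only [mem_iUnion, exists_prop]⟩
  have hEc : ∀ n k, IsClosed (E n k) := by
    intro n k
    have : E n k = ⋃ i ∈ Finset.range n, closure (B (d i) k) := by
      ext z
      simp only [hE, mem_iUnion, exists_prop]
    rw [this]
    exact isClosed_biUnion_finset fun i _ => isClosed_closure
  have hev : ∀ n y, ∀ᶠ k in atTop, y ∉ interior (E n k) := by
    intro n y
    have h5 : ∀ᶠ k in atTop, ∀ i ∈ Finset.range n, y ≠ d i → y ∉ closure (B (d i) k) := by
      rw [Filter.eventually_all_finset]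
      intro i _
      by_cases hy : y = d i
      · exact Eventually.of_forall fun k hne => absurd hy hne
      · exact (h4 i y hy).mono fun k hk _ => hk
    refine h5.mono fun k hk hy => ?_
    obtain ⟨C, hCdef⟩ : ∃ C : Set X,
        C = ⋃ i ∈ (Finset.range n).filter (fun i => y ≠ d i), closure (B (d i) k) := ⟨_, rfl⟩
    have hCm : ∀ z, z ∈ C ↔ ∃ i ∈ Finset.range n, y ≠ d i ∧ z ∈ closure (B (d i) k) := by
      intro z
      rw [hCdef]
      simp only [mem_iUnion, Finset.mem_filter, exists_prop, and_assoc]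
    have hC : IsClosed C := by
      rw [hCdef]
      exact isClosed_biUnion_finset fun i _ => isClosed_closure
    have hyC : y ∉ C := by
      rw [hCm]
      rintro ⟨i, hi, hne, hy'⟩
      exact hk i hi hne hy'
    have hG : IsOpen (interior (E n k) ∩ Cᶜ) := isOpen_interior.inter hC.isOpen_compl
    have hsub : ∀ z ∈ interior (E n k) ∩ Cᶜ, ∃ i, y = d i ∧ z ∈ closure (B (d i) k) := by
      rintro z ⟨hz1, hz2⟩
      obtain ⟨i, hi, hz4⟩ := (hE n k z).1 (interior_subset hz1)
      refine ⟨i, ?_, hz4⟩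
      by_contra hne
      exact hz2 ((hCm z).2 ⟨i, hi, hne, hz4⟩)
    obtain ⟨j, hyj, _⟩ := hsub y ⟨hy, hyC⟩
    refine h3 j k ?_
    rw [← hyj]
    refine mem_interior.2 ⟨_, fun z hz => ?_, hG, ⟨hy, hyC⟩⟩
    obtain ⟨i, hyi, hz4⟩ := hsub z hz
    rwa [← hyi] at hz4
  obtain ⟨U, hU, hev2⟩ := hS (fun n => {u | ∃ k, u = (interior (E n k))ᶜ}) (by
    intro n
    have hfin : ∀ F : Set X, F.Finite → ∃ u ∈ {u | ∃ k, u = (interior (E n k))ᶜ}, F ⊆ u := by
      intro F hF
      have h5 : ∀ᶠ k in atTop, ∀ y ∈ F, y ∉ interior (E n k) :=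
        (Filter.eventually_all_finite hF).2 fun y _ => hev n y
      obtain ⟨k, hk⟩ := h5.exists
      exact ⟨_, ⟨k, rfl⟩, hk⟩
    refine ⟨?_, ?_, hfin⟩
    · refine eq_univ_of_forall fun y => ?_
      obtain ⟨u, hu, hyu⟩ := hfin {y} (finite_singleton y)
      exact ⟨u, hu, hyu rfl⟩
    · rintro u ⟨k, rfl⟩
      exact minBounded_compl_interior _ (hEc n k))
  choose k hk using hU
  have hBE : ∀ n i, i < n → B (d i) (k n) ⊆ interior (E n (k n)) := by
    intro n i hi
    exact interior_maximal
      (fun z hz => (hE _ _ z).2 ⟨i, Finset.mem_range.2 hi, subset_closure hz⟩) (h1 i _)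
  refine ⟨fun N => ⋃ n, ⋃ (_ : N ≤ n), ⋃ i, ⋃ (_ : i < n), B (d i) (k n), ?_, ?_, ?_⟩
  · intro N
    exact isOpen_iUnion fun n => isOpen_iUnion fun _ => isOpen_iUnion fun i =>
      isOpen_iUnion fun _ => h1 i _
  · intro y
    obtain ⟨N0, hN0⟩ := eventually_atTop.1 (hev2 y)
    refine eventually_atTop.2 ⟨N0, fun N hN hy => ?_⟩
    simp only [mem_iUnion, exists_prop] at hy
    obtain ⟨n, hn, i, hi, hyi⟩ := hy
    have h6 := hN0 n (hN.trans hn)
    rw [hk n] at h6
    exact h6 (hBE n i hi hyi)
  · intro i N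
    refine closure_mono ?_ (h2 i (k (max N (i + 1))))
    intro z hz
    simp only [mem_iUnion, exists_prop]
    exact ⟨max N (i + 1), le_max_left _ _, i, lt_of_lt_of_le (Nat.lt_succ_self i)
      (le_max_right _ _), hz⟩

end Run7.h232.OW
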